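import Mathlib

set_option autoImplicit false

namespace Pool.Agent.Results.MP_a310d2_co.Unbounded
open SimpleGraph Finset

/-- Outer mutual-visibility sets. -/
def Outer {V : Type} (G : SimpleGraph V) (S : Finset V) : Prop :=
  ∀ u ∈ S, ∀ v, ∃ p : G.Walk u v, p.length = G.dist u v ∧ ∀ w ∈ p.support, w ∈ S → w = u ∨ w = v

/-- Outer mutual-visibility number. -/
noncomputable def mu {V : Type} (G : SimpleGraph V) : ℕ := sSup {n | ∃ S, Outer G S ∧ S.card = n}

theorem dist_eq {V : Type} {G : SimpleGraph V} (u : V) (D : V → ℕ) (h0 : D u = 0)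
    (h1 : ∀ a b, G.Adj a b → D b ≤ D a + 1) (h2 : ∀ v, v ≠ u → ∃ w, G.Adj w v ∧ D w + 1 = D v)
    (v : V) : G.Reachable u v ∧ G.dist u v = D v := by
  have k1 : ∀ n v, D v = n → ∃ p : G.Walk u v, p.length = n := by
    intro n
    induction n with
    | zero =>
      intro v hv
      obtain rfl : v = u := by by_contra h; obtain ⟨w, -, h⟩ := h2 v h; omega
      exact ⟨.nil, rfl⟩
    | succ n ih =>
      intro v hv
      obtain ⟨w, a, b⟩ := h2 v (by rintro rfl; omega)
      obtain ⟨p, hp⟩ := ih w (by omega)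
      exact ⟨p.concat a, by simp [hp]⟩
  have k2 : ∀ a b (p : G.Walk a b), D b ≤ D a + p.length := by
    intro a b p
    induction p with
    | nil => simp
    | cons h p ih => have := h1 _ _ h; simp only [Walk.length_cons]; omega
  obtain ⟨p, hp⟩ := k1 _ v rfl
  obtain ⟨q, hq⟩ := p.reachable.exists_walk_length_eq_dist
  have := k2 _ _ q
  have := dist_le p
  exact ⟨p.reachable, by omega⟩

theorem pen {V : Type} {G : SimpleGraph V} {S : Finset V} (h : Outer G S) {s : V} (hs : s ∈ S)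
    {v : V} (hv : v ≠ s) : ∃ w, G.Adj w v ∧ G.dist s w + 1 ≤ G.dist s v ∧ (w ∈ S → w = s) := by
  obtain ⟨p, h1, h2⟩ := h s hs v
  obtain ⟨w, q, a, rfl⟩ : ∃ (w : V) (q : G.Walk s w) (a : G.Adj w v), p = q.concat a := by
    cases p with
    | nil => exact absurd rfl hv
    | cons a q => exact Walk.exists_cons_eq_concat a q
  refine ⟨w, a, ?_, fun hw => (h2 w (by simp) hw).resolve_right a.ne⟩
  have := dist_le q
  simp only [Walk.length_concat] at h1
  omega

theorem inner {V : Type} {G : SimpleGraph V} {u v : V} (p : G.Walk u v) (hp : p.IsPath) (w : V)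
    (hw : w ∈ p.support) (h1 : w ≠ u) (h2 : w ≠ v) : ∃ a b, a ≠ b ∧ G.Adj w a ∧ G.Adj w b := by
  induction p with
  | nil => simp_all
  | @cons u u' v h q ih =>
    rw [Walk.cons_isPath_iff] at hp
    have hw' : w ∈ q.support := by simpa [h1] using hw
    by_cases h3 : w = u'
    · subst h3
      cases q with
      | nil => exact absurd rfl h2
      | cons h' q => exact ⟨_, _, fun e => hp.2 (by simp [e]), h.symm, h'⟩
    · exact ih hp.1 hw' h3 h2

abbrev V (k : ℕ) : Type := Option (Fin (k + 1) × Fin (k + 2))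

def adj {k : ℕ} : V k → V k → Prop
  | none, none => False
  | none, some b => b.2.1 = k + 1
  | some a, none => a.2.1 = k + 1
  | some a, some b => (a.1.1 = b.1.1 ∧ (a.2.1 + 1 = b.2.1 ∨ b.2.1 + 1 = a.2.1)) ∨
      (a.2.1 = 0 ∧ b.2.1 = 0 ∧ (a.1.1 + 1 = b.1.1 ∨ b.1.1 + 1 = a.1.1))

def G (k : ℕ) : SimpleGraph (V k) where
  Adj := adj
  symm := ⟨by rintro (_ | a) (_ | b) h <;> simp only [adj] at h ⊢ <;> omega⟩
  loopless := ⟨by rintro (_ | a) h <;> simp only [adj] at h; omega⟩

def D {k : ℕ} (a : Fin (k + 1) × Fin (k + 2)) : V k → ℕ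
  | none => k + 2 - a.2.1
  | some b => if a.1.1 = b.1.1 then (a.2.1 - b.2.1) + (b.2.1 - a.2.1) else
      min (a.2.1 + ((a.1.1 - b.1.1) + (b.1.1 - a.1.1)) + b.2.1) (2 * k + 4 - a.2.1 - b.2.1)

theorem dG {k : ℕ} (a : Fin (k + 1) × Fin (k + 2)) (v : V k) :
    (G k).Reachable (some a) v ∧ (G k).dist (some a) v = D a v := by
  obtain ⟨⟨i, hi⟩, ⟨h, hh⟩⟩ := a
  refine dist_eq _ _ (by simp [D]) ?_ ?_ v
  · rintro (_ | ⟨⟨j, hj⟩, ⟨g, hg⟩⟩) (_ | ⟨⟨j', hj'⟩, ⟨g', hg'⟩⟩) <;> simp only [G, adj, D] <;>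
      (try split_ifs) <;> omega
  · rintro (_ | ⟨⟨j, hj⟩, ⟨g, hg⟩⟩) hv
    · by_cases c : h = k + 1
      · exact ⟨some (⟨i, hi⟩, ⟨h, hh⟩), c, by simp only [D, if_true]; omega⟩
      · exact ⟨some (⟨i, hi⟩, ⟨k + 1, by omega⟩), rfl, by simp only [D, if_true]; omega⟩
    have hv' : j ≠ i ∨ g ≠ h := by by_contra c; exact hv (by simp; omega)
    by_cases c1 : i = j
    · subst c1
      rcases lt_or_gt_of_ne (hv'.resolve_left (by simp)) with c | c
      · exact ⟨some (⟨i, hi⟩, ⟨g + 1, by omega⟩), by simp [G, adj], by simp only [D, if_true]; omega⟩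
      · exact ⟨some (⟨i, hi⟩, ⟨g - 1, by omega⟩), by simp only [G, adj, true_and]; omega,
          by simp only [D, if_true]; omega⟩
    by_cases c2 : 2 * k + 4 - h - g ≤ h + ((i - j) + (j - i)) + g
    · by_cases c3 : g = k + 1
      · exact ⟨none, c3, by simp only [D, c1, if_false]; omega⟩
      · exact ⟨some (⟨j, hj⟩, ⟨g + 1, by omega⟩), by simp [G, adj],
          by simp only [D, c1, if_false]; omega⟩
    by_cases c3 : g = 0
    · rcases lt_or_gt_of_ne c1 with c | c
      · exact ⟨some (⟨j - 1, by omega⟩, ⟨g, hg⟩), by simp only [G, adj]; omega,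
          by simp only [D, c1, if_false]; split_ifs <;> omega⟩
      · exact ⟨some (⟨j + 1, by omega⟩, ⟨g, hg⟩), Or.inr ⟨c3, c3, Or.inr rfl⟩,
          by simp only [D, c1, if_false]; split_ifs <;> omega⟩
    · exact ⟨some (⟨j, hj⟩, ⟨g - 1, by omega⟩), by simp only [G, adj, true_and]; omega,
        by simp only [D, c1, if_false]; omega⟩

theorem up {k : ℕ} {S : Finset (V k)} (h : Outer (G k) S) {a b : Fin (k + 1) × Fin (k + 2)}
    (ha : some a ∈ S) (hb : some b ∈ S) (hab : a.1.1 ≠ b.1.1 ∨ a.2.1 < b.2.1) (h1 : b.2.1 < k + 1) :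
    a.1.1 ≠ b.1.1 ∧ 2 * k + 2 ≤ 2 * (a.2.1 + b.2.1) + ((a.1.1 - b.1.1) + (b.1.1 - a.1.1)) := by
  obtain ⟨w, c1, c2, c3⟩ := pen h ha (v := some (b.1, ⟨b.2.1 + 1, by omega⟩))
    (fun e => by have := Option.some.inj e; subst this; simp at hab)
  rw [(dG _ _).2, (dG _ _).2] at c2
  have c4 : w ≠ some b := by
    rintro rfl
    have := Option.some.inj (c3 hb)
    subst this; omega
  rcases w with _ | w
  · simp only [G, adj, D] at c1 c2
    split_ifs at c2 <;> omega
  · have c5 : w.1.1 ≠ b.1.1 ∨ w.2.1 ≠ b.2.1 := by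
      by_contra c; exact c4 (congrArg some (Prod.ext (Fin.ext (by omega)) (Fin.ext (by omega))))
    simp only [G, adj, D] at c1 c2
    split_ifs at c2 <;> omega

theorem dn {k : ℕ} {S : Finset (V k)} (h : Outer (G k) S) {a b : Fin (k + 1) × Fin (k + 2)}
    (ha : some a ∈ S) (hb : some b ∈ S) (hab : a.1.1 ≠ b.1.1) (h1 : 2 ≤ b.2.1) :
    2 * (a.2.1 + b.2.1) + ((a.1.1 - b.1.1) + (b.1.1 - a.1.1)) ≤ 2 * k + 6 := by
  obtain ⟨w, c1, c2, c3⟩ := pen h ha (v := some (b.1, ⟨b.2.1 - 1, by omega⟩))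
    (fun e => by have := Option.some.inj e; subst this; simp at hab)
  rw [(dG _ _).2, (dG _ _).2] at c2
  have c4 : w ≠ some b := by
    rintro rfl
    have := Option.some.inj (c3 hb)
    subst this; omega
  have := b.2.2
  rcases w with _ | w
  · simp only [G, adj, D] at c1 c2
    omega
  · have c5 : w.1.1 ≠ b.1.1 ∨ w.2.1 ≠ b.2.1 := by
      by_contra c; exact c4 (congrArg some (Prod.ext (Fin.ext (by omega)) (Fin.ext (by omega))))
    simp only [G, adj, D] at c1 c2
    split_ifs at c2 <;> omega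

theorem both {k : ℕ} {S : Finset (V k)} (h : Outer (G k) S) {a b : Fin (k + 1) × Fin (k + 2)}
    (ha : some a ∈ S) (hb : some b ∈ S) (hab : a.1.1 < b.1.1) :
    2 * k + 2 ≤ 2 * (a.2.1 + b.2.1) + (b.1.1 - a.1.1) ∧
      2 * (a.2.1 + b.2.1) + (b.1.1 - a.1.1) ≤ 2 * k + 6 := by
  have := b.1.2
  have := b.2.2
  have := fun c => (up h ha hb (Or.inl hab.ne) c).2
  have := dn h ha hb hab.ne
  have := dn h hb ha hab.ne'
  omega

theorem bound {k : ℕ} {S : Finset (V k)} (h : Outer (G k) S) : S.card ≤ 23 := by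
  classical
  let J : Finset ℕ := (univ.filter fun a => some a ∈ S).image fun a => a.1.1
  have hJ : J.card ≤ 11 := by
    rcases J.eq_empty_or_nonempty with e | hne
    · simp [e]
    let J' := (J.erase (J.min' hne)).erase (J.max' hne)
    have e1 : J.card ≤ J'.card + 2 := by
      have := pred_card_le_card_erase (s := J) (a := J.min' hne)
      have := pred_card_le_card_erase (s := J.erase (J.min' hne)) (a := J.max' hne)
      simp only [J']; omega
    rcases J'.eq_empty_or_nonempty with e | hne'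
    · rw [e] at e1; simp at e1; omega
    have m : ∀ j ∈ J, ∃ a, some a ∈ S ∧ a.1.1 = j := fun j hj => by simpa [J] using hj
    have m' : ∀ j ∈ J', j ∈ J ∧ J.min' hne < j ∧ j < J.max' hne := fun j hj => by
      simp only [J', mem_erase] at hj
      exact ⟨hj.2.2, (min'_le _ _ hj.2.2).lt_of_ne' hj.2.1, (le_max' _ _ hj.2.2).lt_of_ne hj.1⟩
    have : J' ⊆ Icc (J'.min' hne') (J'.min' hne' + 8) := fun j hj => by
      refine mem_Icc.2 ⟨min'_le _ _ hj, not_lt.1 fun c => ?_⟩
      obtain ⟨a, ha, ea⟩ := m _ (min'_mem J hne)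
      obtain ⟨d, hd, ed⟩ := m _ (max'_mem J hne)
      obtain ⟨b1, b2, b3⟩ := m' _ (min'_mem J' hne')
      obtain ⟨c1, c2, c3⟩ := m' _ hj
      obtain ⟨b, hb, eb⟩ := m _ b1
      obtain ⟨e, he, ee⟩ := m _ c1
      have := both h ha hb (by omega)
      have := both h ha he (by omega)
      have := both h hb he (by omega)
      have := both h hb hd (by omega)
      have := both h he hd (by omega)
      omega
    have := card_le_card this
    simp only [Nat.card_Icc] at this
    omega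
  have : S.card ≤ (insertNone (J ×ˢ (univ : Finset Bool))).card := by
    refine card_le_card_of_injOn (Option.map fun a => (a.1.1, decide (a.2.1 = k + 1))) ?_ ?_
    · rintro (_ | a) ha
      · simp
      · simpa [J] using ⟨a.1, ⟨a.2, ha⟩, rfl⟩
    · rintro (_ | a) ha (_ | b) hb e <;> simp only [Option.map, reduceCtorEq, Option.some.injEq,
        Prod.mk.injEq, decide_eq_decide] at e ⊢
      have := a.2.2
      have := b.2.2
      have := fun c d => (up h ha hb (Or.inr c) d).1
      have := fun c d => (up h hb ha (Or.inr c) d).1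
      exact Prod.ext (Fin.ext e.1) (Fin.ext (by omega))
  simp only [card_insertNone, card_product, card_univ, Fintype.card_bool] at this
  omega

theorem conn (k : ℕ) : ((G k).induce {none}ᶜ).Connected := by
  refine (connected_iff_exists_forall_reachable _).2 ⟨⟨some (0, 0), by simp⟩, ?_⟩
  have : ∀ n (a : Fin (k + 1) × Fin (k + 2)), a.1.1 + a.2.1 = n →
      ((G k).induce {none}ᶜ).Reachable ⟨some (0, 0), by simp⟩ ⟨some a, by simp⟩ := by
    intro n
    induction n with
    | zero =>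
      intro a ha
      obtain rfl : a = (0, 0) := Prod.ext (Fin.ext (show a.1.1 = 0 by omega)) (Fin.ext (show a.2.1 = 0 by omega))
      rfl
    | succ n ih =>
      rintro ⟨⟨i, hi⟩, ⟨h, hh⟩⟩ ha
      by_cases c : h = 0
      · exact (ih (⟨i - 1, by omega⟩, ⟨h, hh⟩) (by simp at ha ⊢; omega)).trans
          (Adj.reachable (by simp [G, adj] at ha ⊢; omega))
      · exact (ih (⟨i, hi⟩, ⟨h - 1, by omega⟩) (by simp at ha ⊢; omega)).trans
          (Adj.reachable (by simp [G, adj]; omega))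
  rintro ⟨_ | a, ha⟩
  · simp at ha
  · exact this _ a rfl

theorem result (k : ℕ) : ∃ (W : Type) (_ : Fintype W) (H : SimpleGraph W) (x : W),
    H.Connected ∧ (H.induce {x}ᶜ).Connected ∧ mu H ≤ 23 ∧ k ≤ mu (H.induce {x}ᶜ) := by
  classical
  refine ⟨V k, inferInstance, G k, none, (connected_iff_exists_forall_reachable _).2
    ⟨some (0, 0), fun v => (dG _ v).1⟩, conn k,
    csSup_le' (by rintro _ ⟨S, hS, rfl⟩; exact bound hS), (Nat.le_succ k).trans (le_csSup
      ⟨_, by rintro _ ⟨S, -, rfl⟩; exact card_le_univ S⟩ ⟨univ.image fun i : Fin (k + 1) =>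
        ⟨some (i, Fin.last _), by simp⟩, fun u _ v => ?_, ?_⟩)⟩
  · obtain ⟨p, h1, h2⟩ := (conn k).exists_path_of_dist u v
    refine ⟨p, h2, fun w hw hS => ?_⟩
    by_contra c
    obtain ⟨⟨_ | a, ha⟩, ⟨_ | b, hb⟩, c1, c2, c3⟩ :=
      inner p h1 w hw (fun e => c (Or.inl e)) fun e => c (Or.inr e)
    · simp at ha
    · simp at ha
    · simp at hb
    obtain ⟨i, -, rfl⟩ := mem_image.1 hS
    have := a.2.2
    have := b.2.2
    simp only [G, adj, comap_adj, Function.Embedding.subtype_apply, Fin.val_last] at c2 c3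
    exact c1 (Subtype.ext (congrArg some (Prod.ext (Fin.ext (by omega)) (Fin.ext (by omega)))))
  · rw [card_image_of_injective _ fun i j e => by simpa using e]
    simp

end Pool.Agent.Results.MP_a310d2_co.Unbounded
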